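import Pool.Agent.H946_NS.G3

/-!
An interior regularity criterion in terms of the part of the vorticity orthogonal to an axis (two
components of the vorticity, as in the theorem of Chae and Choe, but the axis may depend on the
time) for smooth solutions of the Navier-Stokes equations in a domain, up to the first singular
time, with a condition in one shrinking ball only: a ball in which the local enstrophy is the
largest.

`V = Fin 3 → ℝ` with the maximum norm. See the claim file for the definitions.
-/

open MeasureTheory Set Metric Filter Topology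
open scoped ContDiff ENNReal

namespace Pool.Agent.Results.MP_fd8964_an.OneBallAxis

open H459R3.NS W221.NS Pool.Agent.H946.NS

/-- For every cut-off function `κ` there is an `ε > 0` with the following property. Let `(u, p)` be a
smooth solution with viscosity `ν` on `(0, T) × Ω`, where `Ω` is an open set, with bounded energy and
finite dissipation (no boundary condition is needed), and let `K` be a compact subset of `Ω` without
singular points on its boundary. Then there is an `r₀ > 0` such that the following holds for all
`t₀`, `B`, all non-increasing functions `r` of the time with values in `(0, r₀]` and all locally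
integrable `g ≥ ν / r²`, such that the integral of `g` from `t₀` to `t` is at most
`ε log (1 / (T - t)) + B` for some `t` arbitrarily close to `T`. Suppose that at almost all times `t`
in `(t₀, T)` at which the largest enstrophy localised at the scale `r = r t` around a point of `K` is
at least as large as at all earlier times, for one of the points `x` of `K` in which it is attained
there is a unit vector `a` such that `P² / ν³ + D / (r ν) ≤ g t`, where `P` is the integral of the
square of the length of the part of the vorticity orthogonal to `a` over the intersection of `K`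
with the ball of radius `5 r` around `x`, and `D` is the integral of `|∇ u|²` over the intersection
of `K` with the ball of radius `8 r` around `x`. Then there is no singular point in `K` at the time
`T`. -/
theorem result (κ : V → ℝ) (hκ : Cut κ) : ∃ ε : ℝ, 0 < ε ∧ ∀ (ν T E : ℝ) (Ω K : Set V)
    (u : ℝ → V → V) (p : ℝ → V → ℝ), 0 < ν → 0 < T → OSol ν T E Ω u p →
      ∫⁻ t in Ioo 0 T, ∫⁻ y in Ω, ENNReal.ofReal (gsq (u t) y) ≠ ⊤ → IsCompact K → K ⊆ Ω →
        (∀ x ∈ frontier K, ¬ Sing T u x) → ∃ r₀ : ℝ, 0 < r₀ ∧ ∀ (t₀ B : ℝ) (r g : ℝ → ℝ),
          t₀ ∈ Ioo 0 T → AntitoneOn r (Ico t₀ T) → (∀ t ∈ Ico t₀ T, 0 < r t ∧ r t ≤ r₀) →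
          (∀ t ∈ Ioo t₀ T, IntegrableOn g (Ioo t₀ t)) →
          (∀ᵐ t ∂((volume : Measure ℝ).restrict (Ioo t₀ T)), ν / r t ^ 2 ≤ g t ∧
            ((∀ s ∈ Ioo t₀ t, ∀ y ∈ K, ∃ x ∈ K, loc κ (r s) (u s) y ≤ loc κ (r t) (u t) x) →
              ∃ x ∈ K, (∀ y ∈ K, loc κ (r t) (u t) y ≤ loc κ (r t) (u t) x) ∧
                ∃ a : V, ∑ j, a j ^ 2 = 1 ∧
                  (∫ y in ball x (5 * r t) ∩ K, xsq (vort (u t) y) a) ^ 2 / ν ^ 3
                    + (∫ y in ball x (8 * r t) ∩ K, gsq (u t) y) / (r t * ν) ≤ g t)) →
          (∃ᶠ t in 𝓝[<] T, ∫ s in Ioo t₀ t, g s ≤ ε * Real.log (1 / (T - t)) + B) →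
          ∀ x ∈ K, ¬ Sing T u x :=
  ax_R hκ

end Pool.Agent.Results.MP_fd8964_an.OneBallAxis
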