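import Pool.Agent.H946_NS.L5

/-!
An interior regularity criterion of Prodi-Serrin type for smooth solutions of the Navier-Stokes
equations in a domain, up to the first singular time, with a condition in one shrinking ball only:
a ball in which the local enstrophy is the largest.

`V = Fin 3 → ℝ` with the maximum norm. See the claim file for the definitions.
-/

open MeasureTheory Set Metric Filter Topology
open scoped ContDiff ENNReal

namespace Pool.Agent.Results.MP_fd8964_an.OneBallInterior

open H459R3.NS W221.NS Pool.Agent.H946.NS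

/-- For every cut-off function `κ` there is an `ε > 0` with the following property. Let `(u, p)` be a
smooth solution with viscosity `ν` on `(0, T) × Ω`, where `Ω` is an open set, with bounded energy and
finite dissipation (no boundary condition is needed), and let `K` be a compact subset of `Ω` without
singular points on its boundary. Then there is an `r₀ > 0` such that the following holds for all
`t₀`, `B`, all non-increasing functions `r` of the time with values in `(0, r₀]` and all locally
integrable `g ≥ ν / r²`, such that the integral of `g` from `t₀` to `t` is at most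
`ε log (1 / (T - t)) + B` for some `t` arbitrarily close to `T`. Suppose that at almost all times `t`
in `(t₀, T)` at which the largest enstrophy localised at the scale `r t` around a point of `K` is at
least as large as at all earlier times, around one of the points of `K` in which it is attained, in
the ball of radius `r t`, `u t` is the sum of a constant, a smooth field whose gradient is at most
`m` and a field `w` with `∫ (|w| - l)₊³ ≤ (ε ν)³`, with some `l, m ≥ 0` such that
`l² / ν + m ≤ g t`. Then there is no singular point in `K` at the time `T`. -/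
theorem result (κ : V → ℝ) (hκ : Cut κ) : ∃ ε : ℝ, 0 < ε ∧ ∀ (ν T E : ℝ) (Ω K : Set V)
    (u : ℝ → V → V) (p : ℝ → V → ℝ), 0 < ν → 0 < T → OSol ν T E Ω u p →
      ∫⁻ t in Ioo 0 T, ∫⁻ y in Ω, ENNReal.ofReal (gsq (u t) y) ≠ ⊤ → IsCompact K → K ⊆ Ω →
        (∀ x ∈ frontier K, ¬ Sing T u x) → ∃ r₀ : ℝ, 0 < r₀ ∧ ∀ (t₀ B : ℝ) (r g : ℝ → ℝ),
          t₀ ∈ Ioo 0 T → AntitoneOn r (Ico t₀ T) → (∀ t ∈ Ico t₀ T, 0 < r t ∧ r t ≤ r₀) →
          (∀ t ∈ Ioo t₀ T, IntegrableOn g (Ioo t₀ t)) →
          (∀ᵐ t ∂((volume : Measure ℝ).restrict (Ioo t₀ T)), ν / r t ^ 2 ≤ g t ∧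
            ((∀ s ∈ Ioo t₀ t, ∀ y ∈ K, ∃ x ∈ K, loc κ (r s) (u s) y ≤ loc κ (r t) (u t) x) →
              ∃ x ∈ K, (∀ y ∈ K, loc κ (r t) (u t) y ≤ loc κ (r t) (u t) x) ∧
                ∃ l m : ℝ, 0 ≤ l ∧ 0 ≤ m ∧ l ^ 2 / ν + m ≤ g t ∧
                  Split (ε * ν) l m (r t) x (u t))) →
          (∃ᶠ t in 𝓝[<] T, ∫ s in Ioo t₀ t, g s ≤ ε * Real.log (1 / (T - t)) + B) →
          ∀ x ∈ K, ¬ Sing T u x :=
  split_nu hκ

end Pool.Agent.Results.MP_fd8964_an.OneBallInterior
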