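import Pool.Agent.H946_NS.E5

/-!
An interior regularity criterion in terms of the strain (of its determinant, or of its middle
eigenvalue, as in the theorems of Neustupa and Penel and of Miller) for smooth solutions of the
Navier-Stokes equations in a domain, up to the first singular time, with a condition in one
shrinking ball only: a ball in which the local enstrophy is the largest.

`V = Fin 3 → ℝ` with the maximum norm. See the claim file for the definitions.
-/

open MeasureTheory Set Metric Filter Topology
open scoped ContDiff ENNReal

namespace Pool.Agent.Results.MP_fd8964_an.OneBallStrain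

open H459R3.NS W221.NS Pool.Agent.H946.NS

/-- For every cut-off function `κ` there is an `ε > 0` with the following property. Let `(u, p)` be a
smooth solution with viscosity `ν` on `(0, T) × Ω`, where `Ω` is an open set, with bounded energy and
finite dissipation (no boundary condition is needed), and let `K` be a compact subset of `Ω` without
singular points on its boundary. Then there is an `r₀ > 0` such that the following holds for all
`t₀`, `B`, all non-increasing functions `r` of the time with values in `(0, r₀]` and all locally
integrable `g ≥ ν / r²`, such that the integral of `g` from `t₀` to `t` is at most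
`ε log (1 / (T - t)) + B` for some `t` arbitrarily close to `T`. Suppose that at almost all times `t`
in `(t₀, T)` at which the largest enstrophy localised at the scale `r = r t` around a point of `K` is
at least as large as at all earlier times, for one of the points `x` of `K` in which it is attained
there is a number `L ≥ 0` and a continuous `h ≥ 0`, such that minus the determinant of the strain is
at most `L + h²` times the square of the norm of the strain in the ball of radius `r` around `x`, the
integral of `h³` over this ball is at most `(ε √ν)³`, and `L + D / (r ν) ≤ g t`, where `D` is the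
integral of `|∇ u|²` over the intersection of `K` with the ball of radius `8 r` around `x`. Then
there is no singular point in `K` at the time `T`. (Minus the determinant of the strain is at most
half the positive part of its middle eigenvalue times the square of its norm.) -/
theorem result (κ : V → ℝ) (hκ : Cut κ) : ∃ ε : ℝ, 0 < ε ∧ ∀ (ν T E : ℝ) (Ω K : Set V)
    (u : ℝ → V → V) (p : ℝ → V → ℝ), 0 < ν → 0 < T → OSol ν T E Ω u p →
      ∫⁻ t in Ioo 0 T, ∫⁻ y in Ω, ENNReal.ofReal (gsq (u t) y) ≠ ⊤ → IsCompact K → K ⊆ Ω →
        (∀ x ∈ frontier K, ¬ Sing T u x) → ∃ r₀ : ℝ, 0 < r₀ ∧ ∀ (t₀ B : ℝ) (r g : ℝ → ℝ),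
          t₀ ∈ Ioo 0 T → AntitoneOn r (Ico t₀ T) → (∀ t ∈ Ico t₀ T, 0 < r t ∧ r t ≤ r₀) →
          (∀ t ∈ Ioo t₀ T, IntegrableOn g (Ioo t₀ t)) →
          (∀ᵐ t ∂((volume : Measure ℝ).restrict (Ioo t₀ T)), ν / r t ^ 2 ≤ g t ∧
            ((∀ s ∈ Ioo t₀ t, ∀ y ∈ K, ∃ x ∈ K, loc κ (r s) (u s) y ≤ loc κ (r t) (u t) x) →
              ∃ x ∈ K, (∀ y ∈ K, loc κ (r t) (u t) y ≤ loc κ (r t) (u t) x) ∧
                ∃ L : ℝ, 0 ≤ L ∧ Eig (ε * √ν) L (r t) x (u t) ∧
                  L + (∫ y in ball x (8 * r t) ∩ K, gsq (u t) y) / (r t * ν) ≤ g t)) →
          (∃ᶠ t in 𝓝[<] T, ∫ s in Ioo t₀ t, g s ≤ ε * Real.log (1 / (T - t)) + B) →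
          ∀ x ∈ K, ¬ Sing T u x :=
  eig_R hκ

end Pool.Agent.Results.MP_fd8964_an.OneBallStrain
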