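import Pool.Agent.H946_NS.D3

/-!
An interior regularity criterion in terms of the vorticity (its direction where it is large, as in
the theorem of Constantin and Fefferman, or its size, as in the theorem of Beale, Kato and Majda)
for smooth solutions of the Navier-Stokes equations in a domain, up to the first singular time, with
a condition in one shrinking ball only: a ball in which the local enstrophy is the largest.

`V = Fin 3 → ℝ` with the maximum norm. See the claim file for the definitions.
-/

open MeasureTheory Set Metric Filter Topology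
open scoped ContDiff ENNReal

namespace Pool.Agent.Results.MP_fd8964_an.OneBallVortex

open H459R3.NS W221.NS Pool.Agent.H946.NS

/-- For every cut-off function `κ` there is an `ε > 0` with the following property. Let `(u, p)` be a
smooth solution with viscosity `ν` on `(0, T) × Ω`, where `Ω` is an open set, with bounded energy and
finite dissipation (no boundary condition is needed), and let `K` be a compact subset of `Ω` without
singular points on its boundary. Then there is an `r₀ > 0` such that the following holds for all
`t₀`, `B`, all non-increasing functions `r` of the time with values in `(0, r₀]` and all locally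
integrable `g ≥ ν / r²`, such that the integral of `g` from `t₀` to `t` is at most
`ε log (1 / (T - t)) + B` for some `t` arbitrarily close to `T`. Suppose that at almost all times `t`
in `(t₀, T)` at which the largest enstrophy localised at the scale `r = r t` around a point of `K` is
at least as large as at all earlier times, for one of the points `x` of `K` in which it is attained
there are `ρ, Λ, l ≥ 0` such that the sine of the angle between the vorticity at `y`, if it is longer
than `Λ`, and the vorticity at `z`, if it is longer than `l`, is at most `ρ |y - z| ^ (1 / 2)` for all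
`y` in the ball of radius `r` and all `z` in the ball of radius `2 r` around `x`, and that
`Λ + (1 / r + ρ² + r³ l² / ν²) D / ν ≤ g t`, where `D` is the integral of `|∇ u|²` over the
intersection of `K` with the ball of radius `8 r` around `x`. Then there is no singular point in `K`
at the time `T`. The condition on the angle holds with `ρ = l = 0` if the length of the vorticity is
at most `Λ` in the ball of radius `r`. -/
theorem result (κ : V → ℝ) (hκ : Cut κ) : ∃ ε : ℝ, 0 < ε ∧ ∀ (ν T E : ℝ) (Ω K : Set V)
    (u : ℝ → V → V) (p : ℝ → V → ℝ), 0 < ν → 0 < T → OSol ν T E Ω u p →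
      ∫⁻ t in Ioo 0 T, ∫⁻ y in Ω, ENNReal.ofReal (gsq (u t) y) ≠ ⊤ → IsCompact K → K ⊆ Ω →
        (∀ x ∈ frontier K, ¬ Sing T u x) → ∃ r₀ : ℝ, 0 < r₀ ∧ ∀ (t₀ B : ℝ) (r g : ℝ → ℝ),
          t₀ ∈ Ioo 0 T → AntitoneOn r (Ico t₀ T) → (∀ t ∈ Ico t₀ T, 0 < r t ∧ r t ≤ r₀) →
          (∀ t ∈ Ioo t₀ T, IntegrableOn g (Ioo t₀ t)) →
          (∀ᵐ t ∂((volume : Measure ℝ).restrict (Ioo t₀ T)), ν / r t ^ 2 ≤ g t ∧
            ((∀ s ∈ Ioo t₀ t, ∀ y ∈ K, ∃ x ∈ K, loc κ (r s) (u s) y ≤ loc κ (r t) (u t) x) →
              ∃ x ∈ K, (∀ y ∈ K, loc κ (r t) (u t) y ≤ loc κ (r t) (u t) x) ∧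
                ∃ ρ Λ l : ℝ, 0 ≤ ρ ∧ 0 ≤ Λ ∧ 0 ≤ l ∧ Coh2 ρ Λ l (r t) x (u t) ∧
                  Λ + (1 / r t + ρ ^ 2 + r t ^ 3 * l ^ 2 / ν ^ 2)
                    * (∫ y in ball x (8 * r t) ∩ K, gsq (u t) y) / ν ≤ g t)) →
          (∃ᶠ t in 𝓝[<] T, ∫ s in Ioo t₀ t, g s ≤ ε * Real.log (1 / (T - t)) + B) →
          ∀ x ∈ K, ¬ Sing T u x :=
  dir_R hκ

end Pool.Agent.Results.MP_fd8964_an.OneBallVortex
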